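import Pool.Agent.Helper98.EY.StmtsC

set_option autoImplicit false

/-! MP_157eb8_pr: enumeration of the barriers. -/

namespace Pool.Agent.Helper98.EX

open Finset Filter

theorem barr_RR (r l : ℕ → ℝ) (z y x : ℕ) (h1 : z ≤ y) (h2 : y ≤ x) :
    RR r l z x = RR r l z y * RR r l y x := by
  unfold RR
  exact (Finset.prod_Ioc_consecutive _ h1 h2).symm

theorem barr_RR0 {r l : ℕ → ℝ} (hp : ∀ x, 0 < r x ∧ 0 ≤ l x) (z x : ℕ) : 0 ≤ RR r l z x := by
  unfold RR
  exact Finset.prod_nonneg (fun b _ => div_nonneg (hp b).2 (hp b).1.le)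

theorem barr_RR1 (r l : ℕ → ℝ) (z : ℕ) : RR r l z z = 1 := by
  unfold RR
  simp

theorem barr_RRs (r l : ℕ → ℝ) (y : ℕ) : RR r l y (y + 1) = l (y + 1) / r (y + 1) := by
  unfold RR
  have : Finset.Ioc y (y + 1) = {y + 1} := by
    ext t
    simp only [Finset.mem_Ioc, Finset.mem_singleton]
    omega
  rw [this, Finset.prod_singleton]

/-- a deep hole climb and a deep particle climb which overlap in one bond give a slow bond -/
theorem barr_slow {N w : ℕ} {r l : ℕ → ℝ} {C1 : ℝ} (hL : 1 ≤ Real.log N)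
    (hN : Real.log N ^ 465 < N) (hG : GE N r l w C1)
    (htri : ∀ a b y : ℕ, 1 ≤ a → a + 1 ≤ b → b ≤ y → y + 1 < N → (y : ℝ) ≤ a + Real.log N ^ 8 →
      vh r l a (b - 1) * vp r l b y ≤ N * Real.log N ^ 25 * r b)
    {a z y b : ℕ} (h1 : 1 ≤ a) (h2 : a ≤ z) (h3 : z ≤ y + 1) (h4 : y ≤ b) (h5 : b + 1 < N)
    (h6 : (b : ℝ) ≤ a + Real.log N ^ 8) (u : th3 N < vh r l a z) (v : th3 N < vp r l y b) :
    r z * N ≤ Real.log N ^ 465 ∧ z = y + 1 := by
  obtain ⟨L, hLd⟩ : ∃ L, L = Real.log N := ⟨_, rfl⟩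
  rw [← hLd] at hL hN htri h6 ⊢
  have hL0 : 0 < L := by linarith
  have hNpos : (0 : ℝ) < N := lt_trans (by positivity) hN
  have hpos := hG.pos
  have hth : th3 N = N / L ^ 220 := by rw [hLd]; rfl
  have hth0 : 0 < th3 N := by rw [hth]; positivity
  have hpair := hG.hp
  rw [← hLd] at hpair
  have hth2 : th3 N ^ 2 * L ^ 440 = N ^ 2 := by
    rw [hth, div_pow, ← pow_mul]
    exact div_mul_cancel₀ _ (by positivity)
  -- the key estimate
  have key : ∀ x : ℝ, 0 < x → th3 N ^ 2 * x < N * L ^ 25 → x * N < L ^ 465 := by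
    intro x hx h
    have e1 : th3 N ^ 2 * x * L ^ 440 < N * L ^ 25 * L ^ 440 :=
      mul_lt_mul_of_pos_right h (by positivity)
    have e2 : th3 N ^ 2 * x * L ^ 440 = N * (x * N) := by
      calc th3 N ^ 2 * x * L ^ 440 = th3 N ^ 2 * L ^ 440 * x := by ring
        _ = N ^ 2 * x := by rw [hth2]
        _ = _ := by ring
    have e3 : N * L ^ 25 * L ^ 440 = N * L ^ 465 := by
      rw [mul_assoc, ← pow_add]
    rw [e2, e3] at e1
    exact lt_of_mul_lt_mul_left e1 hNpos.le
  have hrz := (hpos z).1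
  by_cases hzy : z ≤ y
  · exfalso
    have e1 := hpair a z y b h1 h2 hzy h4 h5 h6
    have e2 : th3 N ^ 2 * 1 < N * L ^ 25 := by
      have : th3 N * th3 N < vh r l a z * vp r l y b :=
        mul_lt_mul'' u v hth0.le hth0.le
      nlinarith
    have e3 := key 1 one_pos e2
    linarith
  have hz : z = y + 1 := by omega
  refine ⟨?_, hz⟩
  have hlz : l z ≤ 1 := (hG.adm z (by omega) (by omega)).2.2.2
  have hlz0 := (hpos z).2
  -- bound for the hole climb
  have ux : ∃ x1 : ℝ, th3 N * r z < x1 ∧ ((a = z ∧ x1 = 1) ∨ (a + 1 ≤ z ∧ x1 = vh r l a (z - 1))) := by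
    rcases Nat.lt_or_ge a z with h | h
    · refine ⟨vh r l a (z - 1), ?_, Or.inr ⟨h, rfl⟩⟩
      have e1 : RR r l a z = RR r l a (z - 1) * (l z / r z) := by
        rw [barr_RR r l a (z - 1) z (by omega) (by omega)]
        have := barr_RRs r l (z - 1)
        rw [show z - 1 + 1 = z by omega] at this
        rw [this]
      have e2 : vh r l a z * r z = vh r l a (z - 1) * l z := by
        unfold vh
        rw [e1]
        field_simp
      have e3 : 0 ≤ vh r l a (z - 1) := div_nonneg (barr_RR0 hpos _ _) (hpos a).1.le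
      calc th3 N * r z < vh r l a z * r z := mul_lt_mul_of_pos_right u hrz
        _ = vh r l a (z - 1) * l z := e2
        _ ≤ vh r l a (z - 1) * 1 := mul_le_mul_of_nonneg_left hlz e3
        _ = _ := mul_one _
    · have haz : a = z := by omega
      refine ⟨1, ?_, Or.inl ⟨haz, rfl⟩⟩
      rw [haz] at u
      unfold vh at u
      rw [barr_RR1, lt_div_iff₀ hrz] at u
      exact u
  have vx : ∃ x2 : ℝ, th3 N * r z < x2 ∧ ((b = y ∧ x2 = 1) ∨ (z ≤ b ∧ x2 = vp r l z b)) := by
    rcases Nat.lt_or_ge y b with h | h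
    · refine ⟨vp r l z b, ?_, Or.inr ⟨by omega, rfl⟩⟩
      have e1 : RR r l y b = l z / r z * RR r l z b := by
        rw [barr_RR r l y z b (by omega) (by omega)]
        have := barr_RRs r l y
        rw [← hz] at this
        rw [this]
      have e2 : vp r l y b * r z = vp r l z b * l z := by
        unfold vp
        rw [e1]
        field_simp
      have e3 : 0 ≤ vp r l z b := div_nonneg (barr_RR0 hpos _ _) (hpos _).1.le
      calc th3 N * r z < vp r l y b * r z := mul_lt_mul_of_pos_right v hrz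
        _ = vp r l z b * l z := e2
        _ ≤ vp r l z b * 1 := mul_le_mul_of_nonneg_left hlz e3
        _ = _ := mul_one _
    · have hby : b = y := by omega
      refine ⟨1, ?_, Or.inl ⟨hby, rfl⟩⟩
      rw [hby] at v
      unfold vp at v
      rw [barr_RR1, ← hz, lt_div_iff₀ hrz] at v
      exact v
  obtain ⟨x1, u1, u2⟩ := ux
  obtain ⟨x2, v1, v2⟩ := vx
  have htr : 0 < th3 N * r z := mul_pos hth0 hrz
  have hx1 : 0 < x1 := lt_trans htr u1
  have hx2 : 0 < x2 := lt_trans htr v1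
  have hprod : (th3 N * r z) * (th3 N * r z) < x1 * x2 :=
    mul_lt_mul'' u1 v1 htr.le htr.le
  have hfin : x1 * x2 ≤ N * L ^ 25 * r z → r z * N ≤ L ^ 465 := by
    intro h
    apply (key (r z) hrz ?_).le
    have e1 : th3 N ^ 2 * r z * r z < N * L ^ 25 * r z := by
      calc th3 N ^ 2 * r z * r z = (th3 N * r z) * (th3 N * r z) := by ring
        _ < x1 * x2 := hprod
        _ ≤ _ := h
    exact lt_of_mul_lt_mul_right e1 hrz.le
  rcases u2 with ⟨u2, u3⟩ | ⟨u2, u3⟩ <;> rcases v2 with ⟨v2, v3⟩ | ⟨v2, v3⟩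
  · -- both trivial
    rw [u3] at u1
    have e1 : r z * N < L ^ 220 := by
      rw [hth, div_mul_eq_mul_div, div_lt_iff₀ (by positivity)] at u1
      linarith
    have e2 : L ^ 220 ≤ L ^ 465 := pow_le_pow_right₀ hL (by norm_num)
    linarith
  · apply hfin
    have e1 := hpair z z z b (by omega) le_rfl le_rfl v2 h5 (by rw [← u2]; exact h6)
    rw [u3, v3, one_mul]
    unfold vh at e1
    rw [barr_RR1, one_div, ← div_eq_inv_mul, div_le_iff₀ hrz] at e1
    exact e1
  · apply hfin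
    have e1 := hpair a (z - 1) (z - 1) (z - 1) h1 (by omega) le_rfl le_rfl (by omega) (by
      have : z - 1 = b := by omega
      rw [this]
      exact h6)
    rw [u3, v3, mul_one]
    have e2 : vp r l (z - 1) (z - 1) = 1 / r z := by
      unfold vp
      rw [barr_RR1, show z - 1 + 1 = z by omega]
    rw [e2, mul_one_div, div_le_iff₀ hrz] at e1
    exact e1
  · apply hfin
    rw [u3, v3]
    exact htri a z b h1 u2 v2 h5 h6

theorem st_BARR : ST_BARR := by
  classical
  intro C1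
  have hev : ∀ᶠ x : ℝ in atTop, Real.log x ^ 465 < x ∧ 1 ≤ Real.log x := by
    have h1 : ∀ᶠ x : ℝ in atTop, |Real.log x ^ 465| ≤ (1 / 2) * |x| :=
      (Real.isLittleO_pow_log_id_atTop (n := 465)).def (by norm_num)
    have h2 : ∀ᶠ x : ℝ in atTop, 1 ≤ Real.log x := Real.tendsto_log_atTop.eventually_ge_atTop 1
    filter_upwards [h1, h2, eventually_gt_atTop 0] with x hx1 hx2 hx3
    refine ⟨?_, hx2⟩
    have := le_abs_self (Real.log x ^ 465)
    rw [abs_of_pos hx3] at hx1
    linarith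
  obtain ⟨N0, hN0⟩ := (tendsto_natCast_atTop_atTop.eventually hev).exists_forall_of_atTop
  refine ⟨N0 + 2, ?_⟩
  intro N w k r l hN hG htri hcard hslow hgap hEL hER
  obtain ⟨hN1, hL⟩ := hN0 N (by omega)
  obtain ⟨S, hS⟩ : ∃ S, S = slowB N r := ⟨_, rfl⟩
  rw [← hS] at hcard hslow hgap
  have hSmem : ∀ b, b ∈ S ↔ (1 ≤ b ∧ b < N) ∧ r b * N ≤ Real.log N ^ 465 := by
    intro b
    rw [hS]
    unfold slowB
    rw [Finset.mem_filter, Finset.mem_Ico]
  obtain ⟨p, hp⟩ : ∃ p, p = S.card := ⟨_, rfl⟩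
  obtain ⟨f, hf⟩ : ∃ f : Fin p ↪o ℕ, Set.range f = (S : Set ℕ) :=
    ⟨S.orderEmbOfFin hp.symm, Finset.range_orderEmbOfFin S hp.symm⟩
  have hfS : ∀ i, f i ∈ S := by
    intro i
    have : f i ∈ Set.range f := ⟨i, rfl⟩
    rw [hf] at this
    exact this
  have hfsurj : ∀ b ∈ S, ∃ i, f i = b := by
    intro b hb
    have : b ∈ (S : Set ℕ) := hb
    rw [← hf] at this
    exact this
  obtain ⟨bb, hbb⟩ : ∃ bb : ℕ → ℕ, ∀ i, bb i = if i = 0 then 0 else
    if h : i - 1 < p then f ⟨i - 1, h⟩ else N := ⟨_, fun _ => rfl⟩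
  have bb0 : bb 0 = 0 := by rw [hbb, if_pos rfl]
  have bbN : bb (p + 1) = N := by
    rw [hbb, if_neg (by omega), dif_neg (by omega)]
  have bbi : ∀ i (h1 : 1 ≤ i) (h2 : i ≤ p), bb i = f ⟨i - 1, by omega⟩ := by
    intro i h1 h2
    rw [hbb, if_neg (by omega), dif_pos]
  have bbS : ∀ i, 1 ≤ i → i ≤ p → bb i ∈ S := by
    intro i h1 h2
    rw [bbi i h1 h2]
    exact hfS _
  have hsq : (N : ℝ) ^ (1 / 2 : ℝ) ≤ N := by
    have h1 : (1 : ℝ) ≤ N := by
      have : 1 ≤ N := by omega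
      exact_mod_cast this
    calc (N : ℝ) ^ (1 / 2 : ℝ) ≤ (N : ℝ) ^ (1 : ℝ) :=
          Real.rpow_le_rpow_of_exponent_le h1 (by norm_num)
      _ = N := Real.rpow_one _
  have bblt : ∀ i, 1 ≤ i → i < p → bb i < bb (i + 1) := by
    intro i h1 h2
    rw [bbi i h1 h2.le, bbi (i + 1) (by omega) (by omega)]
    apply f.strictMono
    rw [Fin.lt_def]
    change i - 1 < i + 1 - 1
    omega
  have bbleN : ∀ i, i ≤ p + 1 → bb i ≤ N := by
    intro i h1
    rcases Nat.eq_zero_or_pos i with h | h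
    · rw [h, bb0]
      exact Nat.zero_le _
    · rcases Nat.lt_or_ge p i with h2 | h2
      · rw [show i = p + 1 by omega, bbN]
      · exact ((hSmem _).1 (bbS i h h2)).1.2.le
  have hBL : BL N p bb := by
    refine ⟨bb0, bbN, ?_⟩
    intro i hi
    rcases Nat.eq_zero_or_pos i with h | h
    · subst h
      rw [bb0, Nat.cast_zero, zero_add]
      rcases Nat.eq_zero_or_pos p with h2 | h2
      · have : bb (0 + 1) = N := by
          have := bbN
          rw [h2] at this
          exact this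
        rw [this]
        exact hsq
      · exact (hslow _ (bbS (0 + 1) (by omega) (by omega))).1.1
    · rcases Nat.lt_or_ge i p with h2 | h2
      · exact hgap _ (bbS i h hi) _ (bbS (i + 1) (by omega) (by omega)) (bblt i h h2)
      · have h3 : i = p := by omega
        subst h3
        rw [bbN]
        exact (hslow _ (bbS i h hi)).1.2.1
  refine ⟨p, bb, ⟨hG, hBL, ?_, ?_, ?_, hEL, hER, ?_⟩, ?_⟩
  · intro i h1 h2
    exact ((hSmem _).1 (bbS i h1 h2)).2
  · intro i h1 h2
    exact (hslow _ (bbS i h1 h2)).2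
  · intro i hi a z y b a1 a2 a3 a4 a5 a6 ⟨u, v⟩
    have hbN := bbleN (i + 1) (by omega)
    obtain ⟨e1, e2⟩ := barr_slow hL hN1 hG htri (by omega) a2 a3 a4 (by omega) a6 u v
    have hzS : z ∈ S := (hSmem z).2 ⟨⟨by omega, by omega⟩, e1⟩
    obtain ⟨j, hj⟩ := hfsurj z hzS
    have hj1 : bb (j + 1) = z := by
      rw [bbi (j + 1) (by omega) (by have := j.2; omega), ← hj]
      congr 1
    have hzlt : z < bb (i + 1) := by omega
    have hzgt : bb i < z := by omega
    -- monotonicity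
    have hjp := j.2
    rcases Nat.lt_trichotomy i (j + 1) with h | h | h
    · -- i < j + 1, so bb (i+1) ≤ bb (j+1)
      have : bb (i + 1) ≤ bb ((j : ℕ) + 1) := by
        rw [bbi (i + 1) (by omega) (by omega), bbi ((j : ℕ) + 1) (by omega) (by omega)]
        apply f.monotone
        rw [Fin.le_def]
        change i + 1 - 1 ≤ (j : ℕ) + 1 - 1
        omega
      omega
    · rw [h] at hzgt
      omega
    · have : bb ((j : ℕ) + 1) ≤ bb i := by
        rw [bbi i (by omega) (by omega), bbi ((j : ℕ) + 1) (by omega) (by omega)]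
        apply f.monotone
        rw [Fin.le_def]
        change (j : ℕ) + 1 - 1 ≤ i - 1
        omega
      omega
  · rw [hp]
    exact hcard
  · intro i h1 h2
    exact (hslow _ (bbS i h1 h2)).1

end Pool.Agent.Helper98.EX
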