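import Pool.Agent.Helper98.EY.StmtsB

set_option autoImplicit false

/-! MP_157eb8_pr: existence of the cells. -/

namespace Pool.Agent.Helper98.EX

open Finset

theorem cuts_RR {r l : ℕ → ℝ} (hrl : ∀ x, 0 < r x ∧ 0 ≤ l x) (z y : ℕ) : 0 ≤ RR r l z y :=
  Finset.prod_nonneg fun b _ => div_nonneg (hrl b).2 (hrl b).1.le

theorem cuts_vp {r l : ℕ → ℝ} (hrl : ∀ x, 0 < r x ∧ 0 ≤ l x) (z y : ℕ) : 0 ≤ vp r l z y :=
  div_nonneg (cuts_RR hrl z y) (hrl _).1.le

theorem cuts_atb0 {r l : ℕ → ℝ} (hrl : ∀ x, 0 < r x ∧ 0 ≤ l x) {η0 : ℝ} (hη : 0 < η0)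
    (w a y : ℕ) : 0 ≤ atb r l η0 w a y :=
  Finset.sum_nonneg fun d _ => mul_nonneg (by positivity) (cuts_vp hrl _ _)

theorem cuts_atb_mono {r l : ℕ → ℝ} (hrl : ∀ x, 0 < r x ∧ 0 ≤ l x) {η0 : ℝ} (hη : 0 < η0)
    {w A a : ℕ} (h : A ≤ a) (y : ℕ) : atb r l η0 w a y ≤ atb r l η0 w A y := by
  unfold atb
  apply Finset.sum_le_sum_of_subset_of_nonneg
  · apply Finset.range_subset_range.2
    omega
  · intro d _ _
    exact mul_nonneg (by positivity) (cuts_vp hrl _ _)

theorem cuts_atb_le {r l : ℕ → ℝ} (hrl : ∀ x, 0 < r x ∧ 0 ≤ l x) {η0 κ : ℝ} (hη : 0 < η0)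
    (hκ : 0 ≤ κ) {w a y : ℕ} (h : ∀ z, a ≤ z → z ≤ y → vp r l z y ≤ κ) :
    atb r l η0 w a y ≤ w * (1 + η0) ^ w * κ := by
  unfold atb
  have h1 : ∀ d ∈ Finset.range (min w (y + 1 - a)), (1 + η0) ^ (d + 1) * vp r l (y - d) y ≤
      (1 + η0) ^ w * κ := by
    intro d hd
    rw [Finset.mem_range] at hd
    have e1 : vp r l (y - d) y ≤ κ := h _ (by omega) (by omega)
    have e2 : (1 + η0) ^ (d + 1) ≤ (1 + η0) ^ w := pow_le_pow_right₀ (by linarith) (by omega)
    exact mul_le_mul e2 e1 (cuts_vp hrl _ _) (by positivity)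
  refine (Finset.sum_le_sum h1).trans ?_
  rw [Finset.sum_const, Finset.card_range, nsmul_eq_mul]
  have e3 : ((min w (y + 1 - a) : ℕ) : ℝ) ≤ w := by exact_mod_cast min_le_left _ _
  calc ((min w (y + 1 - a) : ℕ) : ℝ) * ((1 + η0) ^ w * κ) ≤ w * ((1 + η0) ^ w * κ) :=
        mul_le_mul_of_nonneg_right e3 (by positivity)
    _ = _ := by ring

theorem cuts_sum_le {f : ℕ → ℝ} {a b n : ℕ} {κ : ℝ} (hκ : 0 ≤ κ) (h : ∀ y, a ≤ y → y < b → f y ≤ κ)
    (hn : b - a ≤ n) : ∑ y ∈ Finset.Ico a b, f y ≤ n * κ := by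
  have h1 : ∀ y ∈ Finset.Ico a b, f y ≤ κ := fun y hy => by
    rw [Finset.mem_Ico] at hy
    exact h y hy.1 hy.2
  refine (Finset.sum_le_sum h1).trans ?_
  rw [Finset.sum_const, Nat.card_Ico, nsmul_eq_mul]
  have : ((b - a : ℕ) : ℝ) ≤ n := by exact_mod_cast hn
  exact mul_le_mul_of_nonneg_right this hκ

theorem cuts_vh {r l : ℕ → ℝ} (hrl : ∀ x, 0 < r x ∧ 0 ≤ l x) {D : ℝ} (hD : 1 ≤ D) {w g z y : ℕ}
    (hS : Shal r l D w g) (h1 : g + 2 * w < z) (h2 : z ≤ y) (h3 : y < g + 6 * w) :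
    vh r l z y ≤ D ^ 2 := by
  have e1 : RR r l z y ≤ D := hS.1 z y (by omega) h2 h3
  have e2 : 1 ≤ D * r z := hS.2 z (by omega) (by omega)
  have hr := (hrl z).1
  unfold vh
  rw [div_le_iff₀ hr]
  calc RR r l z y ≤ D := e1
    _ = D * 1 := (mul_one D).symm
    _ ≤ D * (D * r z) := mul_le_mul_of_nonneg_left e2 (by linarith)
    _ = D ^ 2 * r z := by ring

/-- no deep particle climb in the stretch, sum at most `2 ell` -/
def cuts_str (r l : ℕ → ℝ) (w : ℕ) (θ η0 ell : ℝ) (st G : ℕ) : Prop :=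
  (∀ z y, st ≤ z → z ≤ y → y + 3 * w < G → ¬ θ < vp r l z y) ∧
    ∑ y ∈ Finset.Ico st (G - 3 * w), atb r l η0 w st y ≤ 2 * ell

open Classical in
/-- the potential -/
noncomputable def cuts_pot (r l : ℕ → ℝ) (A x0 w : ℕ) (θ η0 ell : ℝ) (a b : ℕ) : ℝ :=
  (∑ y ∈ Finset.Ico (a - 1) x0, atb r l η0 w A y + ∑ y ∈ Finset.Ico b x0, atb r l η0 w A y) / ell +
    ((Finset.Ico b x0).filter (fun y => ∃ z, A ≤ z ∧ z ≤ y ∧ θ < vp r l z y)).card

/-- the cells to the right of `a` -/
structure cuts_tail (r l : ℕ → ℝ) (A x0 w Q1 : ℕ) (θ D η0 ell : ℝ) (a b c : ℕ) (e g : ℕ → ℕ) :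
    Prop where
  e0 : e 0 = a
  cell1 : ∀ i, 1 ≤ i → i ≤ c → e (i - 1) + 4 * w ≤ g i
  cell2 : ∀ i, 1 ≤ i → i ≤ c → g i + 5 * w ≤ e i
  cell3 : ∀ i, 1 ≤ i → i ≤ c → e i ≤ g i + Q1
  shal : ∀ i, 1 ≤ i → i ≤ c → Shal r l D w (g i)
  res : ∀ i, 1 ≤ i → i ≤ c → ∀ z y, g i + 2 * w < z → z ≤ y → y < e i → ¬ θ < vh r l z y
  pos : ∀ i, i ≤ c → A < e i
  last : e c + 4 * w ≤ x0
  str : ∀ i, 1 ≤ i → i ≤ c + 1 →
    cuts_str r l w θ η0 ell (e (i - 1) - 1) (if i ≤ c then g i else x0)
  pot : (c : ℝ) ≤ cuts_pot r l A x0 w θ η0 ell a b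

/-- the invariant of the left end of a stretch -/
def cuts_inv (r l : ℕ → ℝ) (w Q1 : ℕ) (θ η0 ell : ℝ) (a : ℕ) : Prop :=
  ∀ t, a - 1 ≤ t → t < a + Q1 / 8 → (∀ z, a - 1 ≤ z → z ≤ t → ¬ θ < vp r l z t) ∧
    ∑ y ∈ Finset.Ico (a - 1) (t + 1), atb r l η0 w (a - 1) y ≤ ell

/-- the invariant from the absence of deep climbs -/
theorem cuts_inv_of {r l : ℕ → ℝ} (hrl : ∀ x, 0 < r x ∧ 0 ≤ l x) {w Q1 : ℕ} {θ η0 ell : ℝ}
    (hη : 0 < η0) (hθ : 0 ≤ θ) (hw : 1 ≤ w) (hQ : 64 ≤ Q1)
    (hell : ((Q1 : ℝ) + 6 * w) * (w * (1 + η0) ^ w * θ) ≤ ell) {a : ℕ} (ha : 1 ≤ a)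
    (h : ∀ z t, a - 1 ≤ z → z ≤ t → t < a + Q1 / 8 → ¬ θ < vp r l z t) :
    cuts_inv r l w Q1 θ η0 ell a := by
  intro t ht1 ht2
  refine ⟨fun z hz1 hz2 => h z t hz1 hz2 ht2, ?_⟩
  have h1 : ∑ y ∈ Finset.Ico (a - 1) (t + 1), atb r l η0 w (a - 1) y ≤
      (Q1 : ℕ) * (w * (1 + η0) ^ w * θ) := by
    apply cuts_sum_le (by positivity) _ (by omega)
    intro y hy1 hy2
    apply cuts_atb_le hrl hη hθ
    intro z hz1 hz2
    exact not_lt.1 (h z y hz1 hz2 (by omega))
  refine h1.trans (le_trans ?_ hell)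
  apply mul_le_mul_of_nonneg_right _ (by positivity)
  have : (0 : ℝ) ≤ w := Nat.cast_nonneg w
  linarith

section

variable {r l : ℕ → ℝ} {A x0 w q0 Q1 : ℕ} {θ D η0 ell : ℝ}

theorem cuts_step (hrl : ∀ x, 0 < r x ∧ 0 ≤ l x) (hw : 1 ≤ w) (hq0 : 1 ≤ q0) (hD : 1 ≤ D)
    (hDθ : D ^ 2 ≤ θ) (hη : 0 < η0) (hQ : 64 * w + 16 * q0 + 64 ≤ Q1)
    (hell : ((Q1 : ℝ) + 6 * w) * (w * (1 + η0) ^ w * θ) ≤ ell)
    (h1 : ∀ z1 y1 z2 y2, A ≤ z1 → z1 ≤ y1 → y1 < z2 → z2 ≤ y2 → y2 < x0 → y2 ≤ z1 + Q1 →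
      ¬ (θ < vp r l z1 y1 ∧ θ < vp r l z2 y2))
    (h2 : ∀ a z y b, A < a → a ≤ z → z ≤ y + 1 → A ≤ y → y ≤ b → b < x0 → b ≤ a + Q1 →
      ¬ (θ < vh r l a z ∧ θ < vp r l y b))
    (hshort : ∀ z y, A ≤ z → z ≤ y → y < x0 → θ < vp r l z y → y < z + w)
    {g : ℕ} (hgA : A ≤ g) (hgx : g + Q1 < x0) (hS : Shal r l D w g) :
    ∃ e, g + 5 * w ≤ e ∧ e ≤ g + Q1 / 4 + w + 2 ∧
      (∀ z y, g + 2 * w < z → z ≤ y → y < e → ¬ θ < vh r l z y) ∧
      cuts_inv r l w Q1 θ η0 ell e := by
  classical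
  have hθ : 0 ≤ θ := le_trans (by positivity) hDθ
  by_cases hZ : ∃ z y, g + 5 * w ≤ z + 1 ∧ z < g + Q1 / 4 ∧ z ≤ y ∧ y < g + Q1 / 2 ∧
      θ < vp r l z y
  · obtain ⟨z1, y1, a1, a2, a3, a4, a5⟩ := hZ
    -- the largest start of a deep climb
    have hex : ∃ z, g + 5 * w ≤ z + 1 ∧ ∃ y, z ≤ y ∧ y < g + Q1 / 2 ∧ θ < vp r l z y :=
      ⟨z1, a1, y1, a3, a4, a5⟩
    let P : ℕ → Prop := fun z => g + 5 * w ≤ z + 1 ∧ ∃ y, z ≤ y ∧ y < g + Q1 / 2 ∧ θ < vp r l z y
    have hP1 : P z1 := ⟨a1, y1, a3, a4, a5⟩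
    have hbd : ∀ z, P z → z ≤ g + Q1 / 2 := by
      rintro z ⟨-, y, b1, b2, -⟩
      omega
    obtain ⟨zs, hzs, hmax⟩ : ∃ zs, P zs ∧ ∀ z, P z → z ≤ zs := by
      refine ⟨Nat.findGreatest P (g + Q1 / 2), Nat.findGreatest_spec (hbd z1 hP1) hP1, ?_⟩
      intro z hz
      exact Nat.le_findGreatest (hbd z hz) hz
    obtain ⟨c1, ys, c2, c3, c4⟩ := hzs
    have hz1s : z1 ≤ zs := hmax z1 hP1
    have hzy : zs ≤ y1 := by
      by_contra hcon
      push Not at hcon
      exact h1 z1 y1 zs ys (by omega) a3 hcon c2 (by omega) (by omega) ⟨a5, c4⟩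
    have hy1 := hshort z1 y1 (by omega) a3 (by omega) a5
    refine ⟨zs + 2, by omega, by omega, ?_, ?_⟩
    · intro z y b1 b2 b3 b4
      exact h2 z y zs ys (by omega) b2 (by omega) (by omega) c2 (by omega) (by omega) ⟨b4, c4⟩
    · apply cuts_inv_of hrl hη hθ hw (by omega) hell (by omega)
      intro z t b1 b2 b3 b4
      have := hmax z ⟨by omega, t, b2, by omega, b4⟩
      omega
  · push Not at hZ
    refine ⟨g + 5 * w, le_rfl, by omega, ?_, ?_⟩
    · intro z y b1 b2 b3
      exact not_lt.2 ((cuts_vh hrl hD hS b1 b2 (by omega)).trans hDθ)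
    · apply cuts_inv_of hrl hη hθ hw (by omega) hell (by omega)
      intro z t b1 b2 b3
      exact not_lt.2 (hZ z t (by omega) (by omega) b2 (by omega))

theorem cuts_ind (hrl : ∀ x, 0 < r x ∧ 0 ≤ l x) (hw : 1 ≤ w) (hq0 : 1 ≤ q0) (hD : 1 ≤ D)
    (hDθ : D ^ 2 ≤ θ) (hη : 0 < η0) (hQ : 64 * w + 16 * q0 + 64 ≤ Q1)
    (hell : ((Q1 : ℝ) + 6 * w) * (w * (1 + η0) ^ w * θ) ≤ ell) (hell0 : 0 < ell)
    (h1 : ∀ z1 y1 z2 y2, A ≤ z1 → z1 ≤ y1 → y1 < z2 → z2 ≤ y2 → y2 < x0 → y2 ≤ z1 + Q1 →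
      ¬ (θ < vp r l z1 y1 ∧ θ < vp r l z2 y2))
    (h2 : ∀ a z y b, A < a → a ≤ z → z ≤ y + 1 → A ≤ y → y ≤ b → b < x0 → b ≤ a + Q1 →
      ¬ (θ < vh r l a z ∧ θ < vp r l y b))
    (hs : ∀ u, A + 6 * w ≤ u → u + q0 + 6 * w ≤ x0 → ∃ g, u ≤ g ∧ g < u + q0 ∧ Shal r l D w g)
    (hshort : ∀ z y, A ≤ z → z ≤ y → y < x0 → θ < vp r l z y → y < z + w)
    (hx : ∀ z y, A ≤ z → z ≤ y → y < x0 → x0 ≤ y + 2 * Q1 → ¬ θ < vp r l z y) (n : ℕ) :
    ∀ a b : ℕ, x0 - a ≤ n → A < a → a + Q1 / 2 ≤ x0 → b + q0 ≤ a + Q1 / 8 →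
      cuts_inv r l w Q1 θ η0 ell a →
      ∃ c e g, cuts_tail r l A x0 w Q1 θ D η0 ell a b c e g := by
  classical
  have hθ : 0 ≤ θ := le_trans (by positivity) hDθ
  have hat0 : ∀ y, 0 ≤ atb r l η0 w A y := fun y => cuts_atb0 hrl hη w A y
  induction n with
  | zero =>
    intro a b ha1 ha2 ha3
    exfalso
    omega
  | succ n ih =>
    intro a b ha1 ha2 ha3 hb hinv
    have hpot0 : 0 ≤ cuts_pot r l A x0 w θ η0 ell a b := by
      unfold cuts_pot
      have e1 : 0 ≤ ∑ y ∈ Finset.Ico (a - 1) x0, atb r l η0 w A y :=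
        Finset.sum_nonneg fun y _ => hat0 y
      have e2 : 0 ≤ ∑ y ∈ Finset.Ico b x0, atb r l η0 w A y := Finset.sum_nonneg fun y _ => hat0 y
      positivity
    by_cases hbad : ∃ t, a - 1 ≤ t ∧ t < x0 - Q1 ∧ ((∃ z, a - 1 ≤ z ∧ z ≤ t ∧ θ < vp r l z t) ∨
        ell < ∑ y ∈ Finset.Ico (a - 1) (t + 1), atb r l η0 w (a - 1) y)
    · -- a new cell
      let P : ℕ → Prop := fun t => a - 1 ≤ t ∧ t < x0 - Q1 ∧
        ((∃ z, a - 1 ≤ z ∧ z ≤ t ∧ θ < vp r l z t) ∨
          ell < ∑ y ∈ Finset.Ico (a - 1) (t + 1), atb r l η0 w (a - 1) y)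
      have hbadP : ∃ t, P t ∧ ∀ t' < t, ¬ P t' :=
        ⟨Nat.find hbad, Nat.find_spec hbad, fun t' ht' => Nat.find_min hbad ht'⟩
      clear hbad
      obtain ⟨t, ⟨t1, t2, t3⟩, tmin⟩ := hbadP
      have tQ : a + Q1 / 8 ≤ t := by
        by_contra hcon
        push Not at hcon
        obtain ⟨i1, i2⟩ := hinv t t1 hcon
        rcases t3 with ⟨z, z1, z2, z3⟩ | t3
        · exact i1 z z1 z2 z3
        · exact absurd t3 (not_lt.2 i2)
      obtain ⟨g, g1, g2, gS⟩ := hs (t - q0) (by omega) (by omega)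
      obtain ⟨e, e1, e2, e3, e4⟩ := cuts_step hrl hw hq0 hD hDθ hη hQ hell h1 h2 hshort
        (g := g) (by omega) (by omega) gS
      have j1 : x0 - e ≤ n := by clear t3; omega
      have j2 : A < e := by clear t3; omega
      have j3 : e + Q1 / 2 ≤ x0 := by clear t3; omega
      have j4 : t + 1 + q0 ≤ e + Q1 / 8 := by clear t3; omega
      obtain ⟨c, e', g', ht⟩ := ih e (t + 1) j1 j2 j3 j4 e4
      have hstr : cuts_str r l w θ η0 ell (a - 1) g := by
        refine ⟨?_, ?_⟩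
        · intro z y z1 z2 z3 z4
          exact tmin y (by omega) ⟨by omega, by omega, Or.inl ⟨z, z1, z2, z4⟩⟩
        · have f1 : ∑ y ∈ Finset.Ico (a - 1) (g - 3 * w), atb r l η0 w (a - 1) y ≤
              ∑ y ∈ Finset.Ico (a - 1) (t - 1 + 1), atb r l η0 w (a - 1) y := by
            apply Finset.sum_le_sum_of_subset_of_nonneg
            · apply Finset.Ico_subset_Ico_right
              omega
            · intro y _ _
              exact cuts_atb0 hrl hη w _ y
          have f2 : ∑ y ∈ Finset.Ico (a - 1) (t - 1 + 1), atb r l η0 w (a - 1) y ≤ ell := by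
            by_contra hcon
            push Not at hcon
            exact tmin (t - 1) (by omega) ⟨by omega, by omega, Or.inr hcon⟩
          linarith
      have hpot : 1 + cuts_pot r l A x0 w θ η0 ell e (t + 1) ≤
          cuts_pot r l A x0 w θ η0 ell a b := by
        unfold cuts_pot
        have s1 : ∑ y ∈ Finset.Ico (a - 1) x0, atb r l η0 w A y =
            ∑ y ∈ Finset.Ico (a - 1) (t + 1), atb r l η0 w A y +
            ∑ y ∈ Finset.Ico (t + 1) x0, atb r l η0 w A y :=
          (Finset.sum_Ico_consecutive _ (by omega) (by omega)).symm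
        have s2 : ∑ y ∈ Finset.Ico (e - 1) x0, atb r l η0 w A y ≤
            ∑ y ∈ Finset.Ico b x0, atb r l η0 w A y := by
          apply Finset.sum_le_sum_of_subset_of_nonneg
          · apply Finset.Ico_subset_Ico_left
            omega
          · intro y _ _
            exact hat0 y
        have s3 : 0 ≤ ∑ y ∈ Finset.Ico (a - 1) (t + 1), atb r l η0 w A y :=
          Finset.sum_nonneg fun y _ => hat0 y
        have hsub : ((Finset.Ico (t + 1) x0).filter
            (fun y => ∃ z, A ≤ z ∧ z ≤ y ∧ θ < vp r l z y)) ⊆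
            ((Finset.Ico b x0).filter (fun y => ∃ z, A ≤ z ∧ z ≤ y ∧ θ < vp r l z y)) := by
          apply Finset.filter_subset_filter
          apply Finset.Ico_subset_Ico_left
          omega
        rcases t3 with ⟨z, z1, z2, z3⟩ | t3
        · have s4 : (((Finset.Ico (t + 1) x0).filter
              (fun y => ∃ z, A ≤ z ∧ z ≤ y ∧ θ < vp r l z y)).card : ℝ) + 1 ≤
              (((Finset.Ico b x0).filter
                (fun y => ∃ z, A ≤ z ∧ z ≤ y ∧ θ < vp r l z y)).card : ℝ) := by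
            have f1 : ((Finset.Ico (t + 1) x0).filter
              (fun y => ∃ z, A ≤ z ∧ z ≤ y ∧ θ < vp r l z y)).card <
              ((Finset.Ico b x0).filter (fun y => ∃ z, A ≤ z ∧ z ≤ y ∧ θ < vp r l z y)).card := by
              apply Finset.card_lt_card
              refine ⟨hsub, fun hcon => ?_⟩
              have f2 : t ∈ ((Finset.Ico b x0).filter
                  (fun y => ∃ z, A ≤ z ∧ z ≤ y ∧ θ < vp r l z y)) := by
                rw [Finset.mem_filter, Finset.mem_Ico]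
                exact ⟨⟨by omega, by omega⟩, z, by omega, z2, z3⟩
              have f3 := hcon f2
              rw [Finset.mem_filter, Finset.mem_Ico] at f3
              omega
            exact_mod_cast f1
          have s5 : (∑ y ∈ Finset.Ico (e - 1) x0, atb r l η0 w A y +
              ∑ y ∈ Finset.Ico (t + 1) x0, atb r l η0 w A y) / ell ≤
              (∑ y ∈ Finset.Ico (a - 1) x0, atb r l η0 w A y +
              ∑ y ∈ Finset.Ico b x0, atb r l η0 w A y) / ell := by
            apply div_le_div_of_nonneg_right _ hell0.le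
            linarith
          linarith
        · have s4 : (((Finset.Ico (t + 1) x0).filter
              (fun y => ∃ z, A ≤ z ∧ z ≤ y ∧ θ < vp r l z y)).card : ℝ) ≤
              (((Finset.Ico b x0).filter
                (fun y => ∃ z, A ≤ z ∧ z ≤ y ∧ θ < vp r l z y)).card : ℝ) := by
            exact_mod_cast Finset.card_le_card hsub
          have s6 : ∑ y ∈ Finset.Ico (a - 1) (t + 1), atb r l η0 w (a - 1) y ≤
              ∑ y ∈ Finset.Ico (a - 1) (t + 1), atb r l η0 w A y :=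
            Finset.sum_le_sum fun y _ => cuts_atb_mono hrl hη (by omega) y
          have s5 : 1 + (∑ y ∈ Finset.Ico (e - 1) x0, atb r l η0 w A y +
              ∑ y ∈ Finset.Ico (t + 1) x0, atb r l η0 w A y) / ell ≤
              (∑ y ∈ Finset.Ico (a - 1) x0, atb r l η0 w A y +
              ∑ y ∈ Finset.Ico b x0, atb r l η0 w A y) / ell := by
            rw [le_div_iff₀ hell0, add_mul, one_mul, div_mul_cancel₀ _ hell0.ne']
            linarith
          linarith
      refine ⟨c + 1, fun i => if i = 0 then a else e' (i - 1),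
        fun i => if i ≤ 1 then g else g' (i - 1), ?_⟩
      refine ⟨?_, ?_, ?_, ?_, ?_, ?_, ?_, ?_, ?_, ?_⟩
      · simp
      · intro i i1 i2
        by_cases hi : i = 1
        · subst hi
          simp only [le_refl, if_true, Nat.sub_self]
          omega
        · have := ht.cell1 (i - 1) (by omega) (by omega)
          rw [if_neg (by omega), if_neg (by omega)]
          exact this
      · intro i i1 i2
        by_cases hi : i = 1
        · subst hi
          simp only [le_refl, if_true, Nat.sub_self, one_ne_zero, if_false, ht.e0]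
          omega
        · have := ht.cell2 (i - 1) (by omega) (by omega)
          rw [if_neg (by omega), if_neg (by omega)]
          exact this
      · intro i i1 i2
        by_cases hi : i = 1
        · subst hi
          simp only [le_refl, if_true, Nat.sub_self, one_ne_zero, if_false, ht.e0]
          omega
        · have := ht.cell3 (i - 1) (by omega) (by omega)
          rw [if_neg (by omega), if_neg (by omega)]
          exact this
      · intro i i1 i2
        by_cases hi : i = 1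
        · subst hi
          simp only [le_refl, if_true]
          exact gS
        · have := ht.shal (i - 1) (by omega) (by omega)
          rw [if_neg (by omega)]
          exact this
      · intro i i1 i2
        by_cases hi : i = 1
        · subst hi
          simp only [le_refl, if_true, Nat.sub_self, one_ne_zero, if_false, ht.e0]
          exact e3
        · have := ht.res (i - 1) (by omega) (by omega)
          rw [if_neg (by omega), if_neg (by omega)]
          exact this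
      · intro i i1
        by_cases hi : i = 0
        · subst hi
          simp only [if_true]
          exact ha2
        · have := ht.pos (i - 1) (by omega)
          rw [if_neg (by omega)]
          exact this
      · rw [if_neg (by omega)]
        exact ht.last
      · intro i i1 i2
        by_cases hi : i = 1
        · subst hi
          simp only [le_refl, if_true, Nat.sub_self]
          rw [if_pos (by omega)]
          exact hstr
        · have := ht.str (i - 1) (by omega) (by omega)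
          rw [if_neg (by omega : ¬ (i - 1 = 0)), if_neg (by omega : ¬ (i ≤ 1))]
          by_cases hic : i ≤ c + 1
          · rw [if_pos hic]
            rw [if_pos (by omega : i - 1 ≤ c)] at this
            exact this
          · rw [if_neg hic]
            rw [if_neg (by omega : ¬ (i - 1 ≤ c))] at this
            exact this
      · have := ht.pot
        push_cast
        linarith
    · -- the last stretch
      push Not at hbad
      refine ⟨0, fun _ => a, fun _ => 0, ?_⟩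
      refine ⟨rfl, fun i i1 i2 => by omega, fun i i1 i2 => by omega, fun i i1 i2 => by omega,
        fun i i1 i2 => by omega, fun i i1 i2 => by omega, fun i _ => ha2, ?_, ?_, ?_⟩
      · change a + 4 * w ≤ x0
        omega
      · intro i i1 i2
        rw [if_neg (by omega)]
        change cuts_str r l w θ η0 ell (a - 1) x0
        have hdeep : ∀ z y, a - 1 ≤ z → z ≤ y → y < x0 → ¬ θ < vp r l z y := by
          intro z y z1 z2 z3
          by_cases hy : y < x0 - Q1
          · exact not_lt.2 ((hbad y (by omega) hy).1 z z1 z2)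
          · exact hx z y (by omega) z2 z3 (by omega)
        refine ⟨fun z y z1 z2 z3 => hdeep z y z1 z2 (by omega), ?_⟩
        obtain ⟨T0, hT0⟩ : ∃ T0, T0 = max (a - 1) (x0 - Q1) := ⟨_, rfl⟩
        have f0 : ∑ y ∈ Finset.Ico (a - 1) (x0 - 3 * w), atb r l η0 w (a - 1) y ≤
            ∑ y ∈ Finset.Ico (a - 1) x0, atb r l η0 w (a - 1) y := by
          apply Finset.sum_le_sum_of_subset_of_nonneg
          · apply Finset.Ico_subset_Ico_right
            omega
          · intro y _ _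
            exact cuts_atb0 hrl hη w _ y
        have f1 : ∑ y ∈ Finset.Ico (a - 1) x0, atb r l η0 w (a - 1) y =
            ∑ y ∈ Finset.Ico (a - 1) T0, atb r l η0 w (a - 1) y +
            ∑ y ∈ Finset.Ico T0 x0, atb r l η0 w (a - 1) y :=
          (Finset.sum_Ico_consecutive _ (by omega) (by omega)).symm
        have f2 : ∑ y ∈ Finset.Ico (a - 1) T0, atb r l η0 w (a - 1) y ≤ ell := by
          by_cases hT : a - 1 < T0
          · have := (hbad (T0 - 1) (by omega) (by omega)).2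
            rw [show T0 - 1 + 1 = T0 by omega] at this
            exact this
          · rw [Finset.Ico_eq_empty_of_le (by omega), Finset.sum_empty]
            exact hell0.le
        have f3 : ∑ y ∈ Finset.Ico T0 x0, atb r l η0 w (a - 1) y ≤ ell := by
          have f4 : ∑ y ∈ Finset.Ico T0 x0, atb r l η0 w (a - 1) y ≤
              (Q1 : ℕ) * (w * (1 + η0) ^ w * θ) := by
            apply cuts_sum_le (by positivity) _ (by omega)
            intro y hy1 hy2
            apply cuts_atb_le hrl hη hθ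
            intro z hz1 hz2
            exact not_lt.1 (hdeep z y hz1 hz2 hy2)
          refine f4.trans (le_trans ?_ hell)
          apply mul_le_mul_of_nonneg_right _ (by positivity)
          have : (0 : ℝ) ≤ w := Nat.cast_nonneg w
          linarith
        linarith
      · simpa using hpot0

end

theorem st_CUTS : ST_CUTS := by
  classical
  intro N r l A x0 w q0 Q1 d s θ θA D η0 ell hrl hw hq0 hD hDθ hθA0 hθA hη hη1 hQ hell hellA hx0 hx0N
    h1 h2 hs hshort hA hx
  have hθ1 : 1 ≤ θ := by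
    have : 1 ≤ D ^ 2 := one_le_pow₀ hD
    linarith
  have hθ : 0 ≤ θ := by linarith
  have hw' : (1 : ℝ) ≤ w := by exact_mod_cast hw
  have hell0 : 0 < ell := by
    refine lt_of_lt_of_le ?_ hell
    have : (0 : ℝ) ≤ Q1 := Nat.cast_nonneg Q1
    positivity
  -- the first cell
  obtain ⟨g1, hg1, hg2, hgS⟩ := hs (A + d + 6 * w) (by omega) (by omega)
  have hinv : cuts_inv r l w Q1 θ η0 ell (g1 + 5 * w + s) := by
    apply cuts_inv_of hrl hη hθ hw (by omega) hell (by omega)
    intro z t b1 b2 b3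
    exact not_lt.2 (((hA z t (by omega) b2 (by omega)).1).trans hθA)
  obtain ⟨c, e', g', ht⟩ := cuts_ind hrl hw hq0 hD hDθ hη hQ hell hell0 h1 h2 hs hshort hx
    (x0 - (g1 + 5 * w + s)) (g1 + 5 * w + s) A le_rfl (by omega) (by omega) (by omega) hinv
  obtain ⟨L, hL⟩ : ∃ L : BD, L = BD.mk A x0 w (c + 1) (fun i => if i = 0 then A else e' (i - 1))
    (fun i => if i ≤ 1 then g1 else g' (i - 1)) := ⟨_, rfl⟩
  have LA : L.A = A := by rw [hL]
  have Lx : L.x0 = x0 := by rw [hL]
  have Lw : L.w = w := by rw [hL]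
  have LV : L.V = c + 1 := by rw [hL]
  have Le0 : L.e 0 = A := by rw [hL]; simp
  have Le : ∀ i, 1 ≤ i → L.e i = e' (i - 1) := by
    intro i hi
    rw [hL]
    simp only
    rw [if_neg (by omega)]
  have Lg1 : L.g 1 = g1 := by rw [hL]; simp
  have Lg : ∀ i, 2 ≤ i → L.g i = g' (i - 1) := by
    intro i hi
    rw [hL]
    simp only
    rw [if_neg (by omega)]
  have Le1 : L.e 1 = g1 + 5 * w + s := by
    rw [Le 1 le_rfl]
    exact ht.e0
  have LG : ∀ v, 2 ≤ v → L.G v = if v - 1 ≤ c then g' (v - 1) else x0 := by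
    intro v hv
    unfold BD.G
    rw [LV, Lx, Lg v hv]
    by_cases h : v ≤ c + 1
    · rw [if_pos h, if_pos (by omega)]
    · rw [if_neg h, if_neg (by omega)]
  have LG1 : L.G 1 = g1 := by
    unfold BD.G
    rw [LV, if_pos (by omega), Lg1]
  have Lst1 : L.st 1 = A := by
    unfold BD.st
    rw [LA]
    simp only [Nat.sub_self]
    rw [Le0]
    omega
  have Lst : ∀ v, 2 ≤ v → v ≤ c + 2 → L.st v = e' (v - 1 - 1) - 1 := by
    intro v hv hv2
    unfold BD.st
    rw [LA, Le (v - 1) (by omega)]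
    have := ht.pos (v - 1 - 1) (by omega)
    omega
  refine ⟨L, ⟨?_, ?_, ?_, ?_, ?_⟩, LA, Lx, Lw, by omega, ?_, ?_, ?_, ?_, ?_, ?_, ?_⟩
  · rw [Lw]; exact hw
  · rw [Le0, LA]
  · intro v v1 v2
    rw [Lw]
    rw [LV] at v2
    by_cases hv : v = 1
    · subst hv
      rw [Nat.sub_self, Le0, Lg1]
      omega
    · rw [Lg v (by omega), Le (v - 1) (by omega)]
      exact ht.cell1 (v - 1) (by omega) (by omega)
  · intro v v1 v2
    rw [Lw]
    rw [LV] at v2
    by_cases hv : v = 1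
    · subst hv
      rw [Le1, Lg1]
      omega
    · rw [Lg v (by omega), Le v (by omega)]
      exact ht.cell2 (v - 1) (by omega) (by omega)
  · rw [LV, Lw, Lx, Le (c + 1) (by omega)]
    exact ht.last
  · rw [Lg1]; omega
  · rw [Le1, Lg1]
  · rw [Lg1]; omega
  · rw [Lg1, Le1]
    intro z y z1 z2 z3
    exact (hA z y (by omega) z2 (by omega)).2 (by omega)
  · intro v v1 v2
    rw [LV] at v2
    by_cases hv : v = 1
    · subst hv
      rw [Lg1, Le1]
      refine ⟨hgS, fun h => by omega, ?_⟩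
      intro z y z1 z2 z3
      exact not_lt.2 (((hA z y (by omega) z2 (by omega)).2 (by omega)).trans hθA)
    · rw [Lg v (by omega), Le v (by omega)]
      exact ⟨ht.shal (v - 1) (by omega) (by omega), fun _ => ht.cell3 (v - 1) (by omega) (by omega),
        ht.res (v - 1) (by omega) (by omega)⟩
  · intro v v1 v2
    rw [LV] at v2
    by_cases hv : v = 1
    · subst hv
      rw [Lst1, LG1]
      refine ⟨?_, ?_⟩
      · intro z y z1 z2 z3
        exact not_lt.2 (((hA z y z1 z2 (by omega)).1).trans hθA)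
      · have f1 : ∑ y ∈ Finset.Ico A (g1 - 3 * w), atb r l η0 w A y ≤
            ((d + s + q0 + 30 * w : ℕ) : ℝ) * (w * (1 + η0) ^ w * θA) := by
          apply cuts_sum_le (by positivity) _ (by omega)
          intro y hy1 hy2
          apply cuts_atb_le hrl hη hθA0
          intro z hz1 hz2
          exact (hA z y hz1 hz2 (by omega)).1
        push_cast at f1
        linarith
    · rw [Lst v (by omega) (by omega), LG v (by omega)]
      exact ht.str (v - 1) (by omega) (by omega)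
  · rw [LV]
    have f1 := ht.pot
    unfold cuts_pot at f1
    have f2 : ∑ y ∈ Finset.Ico (g1 + 5 * w + s - 1) x0, atb r l η0 w A y ≤
        ∑ y ∈ Finset.Ico A x0, atb r l η0 w A y := by
      apply Finset.sum_le_sum_of_subset_of_nonneg
      · apply Finset.Ico_subset_Ico_left
        omega
      · intro y _ _
        exact cuts_atb0 hrl hη w A y
    have f3 : (∑ y ∈ Finset.Ico (g1 + 5 * w + s - 1) x0, atb r l η0 w A y +
        ∑ y ∈ Finset.Ico A x0, atb r l η0 w A y) / ell ≤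
        2 * (∑ y ∈ Finset.Ico A x0, atb r l η0 w A y) / ell := by
      apply div_le_div_of_nonneg_right _ hell0.le
      linarith
    push_cast
    linarith

end Pool.Agent.Helper98.EX
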